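import Pool.Agent.Helper41.LD5.Defs2
import Pool.Agent.Helper59.RE.Exp

/-!
# Project LD6: nearly optimal discrepancy of the windows of consecutive powers, definitions
-/

set_option autoImplicit false

namespace Pool.Agent.Helper41.LD6

open Set MeasureTheory
open Pool.Agent.Helper41.LD (av var haar)
open Pool.Agent.Helper41.LD4 (A M W Pot NB NBg)

/-! ## The abstract engine -/

/-- `[a, a + ℓ]` is a window of time `n`, for a sequence of functions that vanish from the time `H` on -/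
structure Wq (G : ℕ → ℝ → ℝ) (w η : ℝ) (H n : ℕ) (a ℓ : ℝ) : Prop where
  pos : 0 < ℓ
  w0 : 0 ≤ w
  η0 : 0 ≤ η
  ηH : η * ((H : ℝ) + 1) ^ 2 ≤ 1
  meas : ∀ j, Measurable (G j)
  bdd : ∀ j x, |G j x| ≤ 1
  zero : ∀ j, H ≤ j → ∀ x, G j x = 0
  tail : ∀ j, n ≤ j → |∫ x in a..(a + ℓ), G j x| ≤ w * η * ℓ
  sq : ∀ j, n ≤ j → ∫ x in a..(a + ℓ), G j x * G j x ≤ w * ℓ
  cov : ∀ j₁ j₂, n ≤ j₁ → j₁ < j₂ → |∫ x in a..(a + ℓ), G j₁ x * G j₂ x| ≤ w * η * ℓ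

/-! ## Grid functions, Haar functions -/

/-- a function of period 1, constant on the cells of the grid `1 / N₀` -/
structure Gr (N₀ : ℕ) (f : ℝ → ℝ) : Prop where
  meas : Measurable f
  bdd : ∀ x, |f x| ≤ 1
  per : Function.Periodic f 1
  grid : ∀ s t : ℝ, ⌊(N₀ : ℝ) * s⌋ = ⌊(N₀ : ℝ) * t⌋ → f s = f t

/-- the indicator of `[α, γ)` modulo one -/
noncomputable def bx (α γ y : ℝ) : ℝ := if α ≤ Int.fract y ∧ Int.fract y < γ then 1 else 0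

/-- the constant 1 and the dyadic Haar functions in one list -/
noncomputable def hr (n : ℕ) : ℝ → ℝ := if n = 0 then fun _ => 1 else haar (Nat.log 2 n) (n - 2 ^ Nat.log 2 n)

/-- their square integrals -/
noncomputable def vr (n : ℕ) : ℝ := (1 / 2) ^ Nat.log 2 n

/-- their levels: `0` for the constant -/
def lv (n : ℕ) : ℕ := if n = 0 then 0 else Nat.log 2 n + 1

variable {d : ℕ}

/-- the index set of the functionals: products of Haar functions, the first one not constant -/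
def Qs (d K : ℕ) : Finset (Fin (d + 1) → ℕ) := (Fintype.piFinset fun _ => Finset.range (2 ^ K)).filter fun q => q 0 ≠ 0

/-- the square integral of a product -/
noncomputable def vq (q : Fin (d + 1) → ℕ) : ℝ := ∏ i, vr (q i)

/-- the level of a product -/
def lev (q : Fin (d + 1) → ℕ) : Fin (d + 1) → ℕ := fun i => lv (q i)

/-- the number of the coordinates used -/
def dm (q : Fin (d + 1) → ℕ) : ℕ := (Finset.univ.filter fun i => q i ≠ 0).sup fun i : Fin (d + 1) => (i : ℕ) + 1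

/-- the levels -/
def Lv (d K : ℕ) : Finset (Fin (d + 1) → ℕ) := (Fintype.piFinset fun _ => Finset.range (K + 1)).filter fun l => l 0 ≠ 0

/-- the weight of a level (`dm (lev q) = dm q`) -/
noncomputable def om (K : ℕ) (l : Fin (d + 1) → ℕ) : ℝ := (1 / (2 * ((K : ℝ) + 1))) ^ dm l

/-- the functional `q` along the sequence `U` -/
noncomputable def GQ (U : ℕ → ℝ → ℝ) (H : ℕ) (q : Fin (d + 1) → ℕ) (j : ℕ) (x : ℝ) : ℝ :=
  if j < H then ∏ i : Fin (d + 1), hr (q i) (U (j + i) x) else 0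

/-! ## Powers -/

/-- `A₀ x ^ n + c n` -/
noncomputable def Uf (A₀ : ℝ) (c : ℕ → ℝ) (n : ℕ) (x : ℝ) : ℝ := A₀ * x ^ n + c n

/-- the derivative -/
noncomputable def Vf (A₀ : ℝ) (n : ℕ) (x : ℝ) : ℝ := A₀ * n * x ^ (n - 1)

/-- no small values of short sparse integer combinations of the derivatives -/
def NR6 (t S T N : ℕ) (δ x : ℝ) : Prop :=
  ∀ τ : ℕ, 1 ≤ τ → τ ≤ T → ∀ I : Finset ℕ, I ⊆ Finset.range (S + 1) → I.Nonempty → I.card ≤ t → ∀ m : ℕ → ℤ,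
    (∀ i ∈ I, m i ≠ 0 ∧ |m i| ≤ N) → δ ≤ |∑ i ∈ I, (m i : ℝ) * ((τ : ℝ) + i) * x ^ i|

/-- the time of the length `ℓ` at the point `a`, with the threshold `Θ` -/
noncomputable def Tt (A₀ Θ a ℓ : ℝ) : ℕ := sInf {n : ℕ | Θ ≤ Vf A₀ n a * ℓ}

/-- discrepancy of the `s`-dimensional windows, not divided by `N` -/
def BoxLe (s : ℕ) (u : ℕ → ℝ) (N : ℕ) (E : ℝ) : Prop :=
  ∀ α γ : Fin s → ℝ, (∀ i, 0 ≤ α i ∧ α i ≤ γ i ∧ γ i ≤ 1) →
    |(((Finset.range N).filter fun n : ℕ => ∀ i : Fin s, α i ≤ Int.fract (u (n + i)) ∧ Int.fract (u (n + i)) < γ i).card : ℝ) -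
      N * ∏ i, (γ i - α i)| ≤ E

/-! ## The data of a stage -/

/-- windows of `d + 1` consecutive terms of `A₀ x ^ n + c n` on `[x₁, x₂]`; `X` is a large integer -/
structure Pm where
  (d X : ℕ) (A₀ x₁ x₂ : ℝ) (c : ℕ → ℝ)

namespace Pm

structure Ok (F : Pm) : Prop where
  hA : 0 < F.A₀
  h1 : 1 < F.x₁
  h12 : F.x₁ ≤ F.x₂
  hX : 1 ≤ F.X
  hA1 : F.A₀ ≤ 2 ^ F.X
  hA2 : 1 ≤ F.A₀ * 2 ^ F.X
  hx2 : F.x₂ ≤ 2 ^ F.X
  hx1 : 2 ≤ F.x₁ ^ F.X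

/-- the precision -/
def E (F : Pm) (K : ℕ) : ℕ := (F.d + 4) * K
/-- the number of the times in a product of two functionals -/
def t (F : Pm) : ℕ := 2 * (F.d + 1)
/-- radius of the resonances: `2 ^ (-D₁ E)` -/
def D₁ (F : Pm) : ℕ := 200 * (F.d + 2)
/-- nonresonance: `2 ^ (-D E)` -/
def D (F : Pm) : ℕ := (F.D₁ + 1) * F.t
/-- gap between clusters: `Gp E` -/
def Gp (F : Pm) : ℕ := F.X * (F.D + 40)
/-- `|φ'| ≥ 2 ^ (-D' E) V` -/
def D' (F : Pm) : ℕ := F.D + 4 + F.X * (F.t * F.Gp)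
def C₀ (F : Pm) : ℕ := 40 * F.t + F.D' + 10
/-- threshold of the times: `2 ^ (C₁ E)` -/
def C₁ (F : Pm) : ℕ := F.C₀ + 20
/-- test: `2 ^ (C₂ E)` -/
def C₂ (F : Pm) : ℕ := F.C₁ + F.C₀ + 30
def R (F : Pm) : ℕ := F.X * (F.C₁ + 20) + 1
/-- one constant for all -/
def Z (F : Pm) : ℕ := 1000 * (F.X + 1) * (F.C₂ + F.R + F.t * F.Gp + F.D' + 10)

/-- threshold -/
noncomputable def Th (F : Pm) (K : ℕ) : ℝ := 2 ^ (F.C₁ * F.E K)

/-- `K` is large -/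
def Big (F : Pm) (K : ℕ) : Prop := F.Z ^ 4 ≤ K

/-- the sequence of the stage that starts with the window `[a₀, a₀ + ℓst]` -/
noncomputable def U (F : Pm) (K : ℕ) (a₀ ℓst : ℝ) (j : ℕ) (x : ℝ) : ℝ := Uf F.A₀ F.c (Tt F.A₀ (F.Th K) a₀ ℓst + j) x
noncomputable def V (F : Pm) (K : ℕ) (a₀ ℓst : ℝ) (j : ℕ) (x : ℝ) : ℝ := Vf F.A₀ (Tt F.A₀ (F.Th K) a₀ ℓst + j) x

/-- the times -/
noncomputable def T (F : Pm) (K : ℕ) (a₀ ℓst ℓ : ℝ) : ℕ := Tt F.A₀ (F.Th K) a₀ ℓ - Tt F.A₀ (F.Th K) a₀ ℓst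

/-- the start window of a stage -/
structure St (F : Pm) (K : ℕ) (a₀ ℓst : ℝ) : Prop where
  lo : F.x₁ ≤ a₀
  hi : a₀ + ℓst ≤ F.x₂
  pos : 0 < ℓst
  sm : ℓst * 2 ^ (K ^ 4) ≤ 1
  lg : 1 ≤ ℓst * 2 ^ (2 ^ (2 * K))
  nr : ∀ x ∈ Icc a₀ (a₀ + ℓst), NR6 F.t (F.t * (F.Gp * F.E K)) (2 ^ (3 * K)) (2 ^ (31 * F.E K)) ((1 / 2) ^ (F.D * F.E K)) x

/-- the functional `q` -/
noncomputable def G (F : Pm) (K : ℕ) (a₀ ℓst : ℝ) (q : Fin (F.d + 1) → ℕ) : ℕ → ℝ → ℝ := GQ (F.U K a₀ ℓst) (2 ^ (2 * K)) q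

/-- the parameter of the potentials -/
noncomputable def lam (F : Pm) (K : ℕ) (q : Fin (F.d + 1) → ℕ) : ℝ := 1 / (16384 * (F.X * (K : ℝ) ^ 3)) * om K (lev q)

/-- a good window of the stage -/
def Good (F : Pm) (K : ℕ) (a₀ ℓst a ℓ : ℝ) : Prop :=
  NBg (F.U K a₀ ℓst) (F.T K a₀ ℓst ℓ + F.d) (F.R * F.E K) (2 ^ K) a ℓ ∧
  ∑ q ∈ Qs F.d K, Pot (F.G K a₀ ℓst q) (F.T K a₀ ℓst ℓ) (F.R * F.E K) (F.lam K q) a ℓ ≤ 16 ^ F.E K

end Pm

/-- the constant of a stage -/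
def cF (F : Pm) : ℕ := 2 ^ 30 * 8 ^ (F.d + 1) * F.Z

/-- the proportions; the step `k` (`k ≥ 1`) has the level `Kk K₀ (k - 1)` and the phase `Nat.log 2 k` -/
noncomputable def pro6 (e : ℕ → ℕ) (K₀ k : ℕ) : ℝ := if k = 0 then 1 else (1 / 2) ^ (3 * (e (Nat.log 2 k) * Pool.Agent.Helper41.LD.Kk K₀ (k - 1)))

end Pool.Agent.Helper41.LD6
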